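import Pool.Agent.H27.L1.H68.GHY.Targets
import Pool.Agent.H27.L1.H14.GB.GA2

/-!
Row GAL of the board ghy: Gallagher's inequality for Dirichlet polynomials.
-/

set_option autoImplicit false

namespace Pool.Agent.H27.L1.H14.GHY

open MeasureTheory Pool.Agent.H27.L1.H34.GM Pool.Agent.H27.L1.H34.GZ Pool.Agent.H27.L1.H34.GU Pool.Agent.H27.L1.H34.GA
  Pool.Agent.H27.L1.H68.GHY Pool.Agent.H27.L1.H14.GB

theorem pf_GAL : T_GAL := by
  classical
  have hpi := Real.pi_pos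
  refine ⟨Real.pi ^ 3 / 2, by positivity, ?_⟩
  intro d hd hd2 X b
  have h := gallagher_dir (Finset.Icc 1 X) b (fun k => (k : ℝ)) d hd (fun k hk => by
    have : 0 < k := (Finset.mem_Icc.1 hk).1
    exact_mod_cast this)
  have hsub : Set.Icc (-d⁻¹) d⁻¹ ⊆ Set.Icc (-(Real.pi / d)) (Real.pi / d) := by
    have h1 : d⁻¹ ≤ Real.pi / d := by
      rw [div_eq_mul_inv]
      exact le_mul_of_one_le_left (by positivity) (by linarith [Real.pi_gt_three])
    exact Set.Icc_subset_Icc (neg_le_neg h1) h1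
  calc ∫⁻ t in Set.Icc (-d⁻¹) d⁻¹, ENNReal.ofReal
        (‖∑ k ∈ Finset.Icc 1 X, b k * (k : ℂ) ^ (-((t : ℂ) * Complex.I))‖ ^ 2)
      = ∫⁻ t in Set.Icc (-d⁻¹) d⁻¹,
        ‖∑ k ∈ Finset.Icc 1 X, b k * (((k : ℕ) : ℝ) : ℂ) ^ (-(t : ℂ) * Complex.I)‖ₑ ^ 2 := by
        refine lintegral_congr fun t => ?_
        rw [ENNReal.ofReal_pow (norm_nonneg _), ofReal_norm]
        simp only [Complex.ofReal_natCast, neg_mul]
    _ ≤ ∫⁻ t in Set.Icc (-(Real.pi / d)) (Real.pi / d),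
        ‖∑ k ∈ Finset.Icc 1 X, b k * (((k : ℕ) : ℝ) : ℂ) ^ (-(t : ℂ) * Complex.I)‖ₑ ^ 2 :=
        lintegral_mono_set hsub
    _ ≤ _ := h
    _ = _ := by
        have e1 : Real.pi ^ 3 / (2 * d ^ 2) = Real.pi ^ 3 / 2 * d⁻¹ ^ 2 := by
          field_simp
        rw [e1]
        congr 1
        refine lintegral_congr fun x => ?_
        rw [ENNReal.ofReal_mul (by positivity), ENNReal.ofReal_pow (norm_nonneg _), ofReal_norm]
        congr 3
        refine Finset.sum_congr rfl fun k _ => ?_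
        by_cases hk : wd x d k
        · rw [if_pos hk, if_pos (show x < (k : ℝ) ∧ (k : ℝ) ≤ x * Real.exp d from hk)]
        · rw [if_neg hk, if_neg (show ¬ (x < (k : ℝ) ∧ (k : ℝ) ≤ x * Real.exp d) from hk)]

end Pool.Agent.H27.L1.H14.GHY
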