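import Pool.Agent.H27.L1.H68.GHY.Targets

/-!
Row HCP of the board ghy: composition of the Hecke operators.
-/

set_option autoImplicit false

namespace Pool.Agent.H27.L1.H14.GHY

open MeasureTheory Pool.Agent.H27.L1.H34.GM Pool.Agent.H27.L1.H34.GZ Pool.Agent.H27.L1.H34.GU Pool.Agent.H27.L1.H34.GA
  Pool.Agent.H27.L1.H68.GHY

theorem zm_inv {m : ℕ} {γ : ZM m} (h : IsUnit γ) :
    IsUnit (Ring.inverse γ) ∧ γ * Ring.inverse γ = 1 ∧ Ring.inverse γ * γ = 1 :=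
  ⟨h.ringInverse, Ring.mul_inverse_cancel _ h, Ring.inverse_mul_cancel _ h⟩

theorem zm_cancel {m : ℕ} {α β β' : ZM m} (hα : α.det ≠ 0) (h : β * α = β' * α) : β = β' := by
  have h5 : β * α * α.adjugate = β' * α * α.adjugate := by rw [h]
  rw [Matrix.mul_assoc, Matrix.mul_assoc, Matrix.mul_adjugate, Matrix.mul_smul,
    Matrix.mul_smul, Matrix.mul_one, Matrix.mul_one] at h5
  exact smul_right_injective (ZM m) hα h5

theorem pf_HCP (hIDX : T_IDX) (hALU : T_ALU) (hALZ : T_ALZ) : T_HCP := by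
  classical
  intro m N _ T hm hN hT G hG a n hn g x hg
  obtain ⟨hI1, hI2, hI3, hI4, hI5⟩ := hIDX m
  obtain ⟨-, hac, -⟩ := hALU m N hm hN
  obtain ⟨⟨⟨-, hcR⟩, hdet⟩, -, -, -, hun, -, -⟩ := hALZ m N hm hN
  -- representatives
  obtain ⟨R, hR⟩ : ∃ R : ZM m → ZM m, ∀ z : ZM m, z.det ≠ 0 → R z ∈ T z.det.natAbs ∧
      (∃ γ : ZM m, IsUnit γ ∧ z = γ * R z) ∧
      ∀ α ∈ T z.det.natAbs, (∃ γ : ZM m, IsUnit γ ∧ z = γ * α) → α = R z := by
    choose! R hR using fun (z : ZM m) (hz : z.det ≠ 0) =>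
      hT.uniq z.det.natAbs (Nat.one_le_iff_ne_zero.2 (Int.natAbs_ne_zero.2 hz)) z rfl
    exact ⟨R, fun z hz => ⟨(hR z hz).1.1, (hR z hz).1.2, fun α h1 h2 => (hR z hz).2 α ⟨h1, h2⟩⟩⟩
  obtain ⟨Mf, hMf⟩ : ∃ Mf : ZM m → Finset (AddSubgroup (Fin m → ℤ)), ∀ ρ : ZM m, ρ.det ≠ 0 →
      ∀ L, L ∈ Mf ρ ↔ ∀ i, ρ i ∈ L := by
    choose! Mf hMf using fun (ρ : ZM m) (hρ : ρ.det ≠ 0) =>
      (⟨(hI5 ρ hρ).1.toFinset, fun L => by rw [Set.Finite.mem_toFinset]; rfl⟩ :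
        ∃ s : Finset (AddSubgroup (Fin m → ℤ)), ∀ L, L ∈ s ↔ ∀ i, ρ i ∈ L)
    exact ⟨Mf, hMf⟩
  have hTd : ∀ k, 1 ≤ k → ∀ α ∈ T k, α.det.natAbs = k ∧ α.det ≠ 0 := by
    intro k hk α hα
    have h1 := hT.mem k hk α hα
    refine ⟨h1, fun h0 => ?_⟩
    rw [h0] at h1
    simp at h1
    omega
  have hcg : ∀ ρ ∈ T n, cg a ρ = ∑ L ∈ Mf ρ, a L.index * a (n / L.index) := by
    intro ρ hρ
    obtain ⟨h1, h2⟩ := hTd n hn ρ hρ
    unfold cg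
    rw [← Finset.sum_coe_sort, h1]
    rw [← tsum_fintype (L := .unconditional _)]
    exact ((Equiv.subtypeEquivRight fun L => hMf ρ h2 L).tsum_eq
      (fun M : {M : AddSubgroup (Fin m → ℤ) // ∀ i, ρ i ∈ M} =>
        a (M : AddSubgroup (Fin m → ℤ)).index * a (n / (M : AddSubgroup (Fin m → ℤ)).index))).symm
  -- facts on a triple
  have hq : ∀ n1 n2 : ℕ, n1 * n2 = n → ∀ α ∈ T n1, ∀ β ∈ T n2, α.det.natAbs = n1 ∧
      α.det ≠ 0 ∧ β.det.natAbs = n2 ∧ β.det ≠ 0 ∧ (β * α).det.natAbs = n ∧ (β * α).det ≠ 0 ∧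
      R (β * α) ∈ T n ∧ (R (β * α)).det ≠ 0 ∧
      ∃ γ γ' : ZM m, IsUnit γ ∧ IsUnit γ' ∧ β * α = γ * R (β * α) ∧
        R (β * α) = γ' * (β * α) := by
    intro n1 n2 h12 α hα β hβ
    have h1 : 1 ≤ n1 := Nat.one_le_iff_ne_zero.2 fun h => by rw [h, zero_mul] at h12; omega
    have h2 : 1 ≤ n2 := Nat.one_le_iff_ne_zero.2 fun h => by rw [h, mul_zero] at h12; omega
    obtain ⟨a1, a2⟩ := hTd n1 h1 α hα
    obtain ⟨b1, b2⟩ := hTd n2 h2 β hβ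
    have h3 : (β * α).det.natAbs = n := by
      rw [Matrix.det_mul, Int.natAbs_mul, a1, b1, mul_comm, h12]
    have h4 : (β * α).det ≠ 0 := by
      rw [Matrix.det_mul]
      exact mul_ne_zero b2 a2
    obtain ⟨r1, ⟨γ, r2, r3⟩, -⟩ := hR _ h4
    rw [h3] at r1
    refine ⟨a1, a2, b1, b2, h3, h4, r1, (hTd n hn _ r1).2, γ, Ring.inverse γ, r2,
      (zm_inv r2).1, r3, ?_⟩
    calc R (β * α) = Ring.inverse γ * γ * R (β * α) := by rw [(zm_inv r2).2.2, one_mul]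
      _ = Ring.inverse γ * (β * α) := by rw [mul_assoc, ← r3]
  -- the two sides as sums over pairs
  have hL : ∑ ρ ∈ T n, cg a ρ * G (cR ρ * g) (ac N ρ x) =
      ∑ q ∈ (T n).sigma (fun ρ => Mf ρ), a q.2.index * a (n / q.2.index) *
        G (cR q.1 * g) (ac N q.1 x) := by
    rw [Finset.sum_sigma]
    refine Finset.sum_congr rfl fun ρ hρ => ?_
    rw [hcg ρ hρ, Finset.sum_mul]
  have hRR : ∑ p ∈ n.divisorsAntidiagonal, a p.1 * a p.2 *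
        ∑ α ∈ T p.1, ∑ β ∈ T p.2, G (cR β * (cR α * g)) (ac N β (ac N α x)) =
      ∑ q ∈ (n.divisorsAntidiagonal).sigma (fun p => T p.1 ×ˢ T p.2), a q.1.1 * a q.1.2 *
        G (cR q.2.2 * (cR q.2.1 * g)) (ac N q.2.2 (ac N q.2.1 x)) := by
    rw [Finset.sum_sigma]
    refine Finset.sum_congr rfl fun p _ => ?_
    rw [Finset.sum_product, Finset.mul_sum]
    refine Finset.sum_congr rfl fun α _ => ?_
    rw [Finset.mul_sum]
  rw [hL, hRR]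
  symm
  refine Finset.sum_bij (fun q _ => ⟨R (q.2.2 * q.2.1),
    AddSubgroup.closure (Set.range q.2.1)⟩) ?_ ?_ ?_ ?_
  · rintro ⟨⟨n1, n2⟩, α, β⟩ h
    obtain ⟨h1, h2⟩ := Finset.mem_sigma.1 h
    obtain ⟨h12, -⟩ := Nat.mem_divisorsAntidiagonal.1 h1
    obtain ⟨hα, hβ⟩ := Finset.mem_product.1 h2
    obtain ⟨-, -, -, -, -, -, r1, r2, γ, γ', -, -, -, r3⟩ := hq n1 n2 h12 α hα β hβ
    refine Finset.mem_sigma.2 ⟨r1, (hMf _ r2 _).2 ((hI3 α (R (β * α))).2 ⟨γ' * β, ?_⟩)⟩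
    rw [mul_assoc]
    exact r3
  · rintro ⟨⟨n1, n2⟩, α, β⟩ h ⟨⟨n1', n2'⟩, α', β'⟩ h' he
    obtain ⟨h1, h2⟩ := Finset.mem_sigma.1 h
    obtain ⟨h12, -⟩ := Nat.mem_divisorsAntidiagonal.1 h1
    obtain ⟨hα, hβ⟩ := Finset.mem_product.1 h2
    obtain ⟨h1', h2'⟩ := Finset.mem_sigma.1 h'
    obtain ⟨h12', -⟩ := Nat.mem_divisorsAntidiagonal.1 h1'
    obtain ⟨hα', hβ'⟩ := Finset.mem_product.1 h2'
    obtain ⟨a1, a2, b1, b2, -, -, r1, r2, γ, γ', u1, u2, r3, r4⟩ := hq n1 n2 h12 α hα β hβ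
    obtain ⟨a1', a2', b1', b2', -, -, r1', r2', δ, δ', v1, v2, r3', r4'⟩ :=
      hq n1' n2' h12' α' hα' β' hβ'
    simp only [Sigma.mk.injEq] at he
    obtain ⟨e1, e2⟩ := he
    have e3 : AddSubgroup.closure (Set.range α) = AddSubgroup.closure (Set.range α') :=
      eq_of_heq e2
    have e4 : n1 = n1' := by
      rw [← a1, ← a1', ← hI1 α a2, ← hI1 α' a2', e3]
    subst e4
    have h10 : 0 < n1 := Nat.pos_of_ne_zero fun h => by rw [h, zero_mul] at h12; omega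
    have e5 : n2 = n2' := Nat.eq_of_mul_eq_mul_left h10 (h12.trans h12'.symm)
    subst e5
    obtain ⟨u, hu, hu2⟩ := (hI4 α α' a2).1 e3
    have e6 : α' = α := by
      obtain ⟨c, -, hc⟩ := hT.uniq n1 h10 α' a1'
      exact (hc α' ⟨hα', 1, isUnit_one, (one_mul _).symm⟩).trans
        (hc α ⟨hα, u, hu, hu2⟩).symm
    subst e6
    have e7 : β' * α' = δ * γ' * (β * α') := by
      rw [r3', ← e1, mul_assoc, ← r4]
    have e8 : β' = δ * γ' * β := by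
      refine zm_cancel a2' ?_
      rw [e7, mul_assoc (δ * γ') β α']
    have h20 : 1 ≤ n2 := Nat.one_le_iff_ne_zero.2 fun h => by rw [h, mul_zero] at h12; omega
    have e9 : β' = β := by
      obtain ⟨c, -, hc⟩ := hT.uniq n2 h20 β' b1'
      exact (hc β' ⟨hβ', 1, isUnit_one, (one_mul _).symm⟩).trans
        (hc β ⟨hβ, δ * γ', v1.mul u2, e8⟩).symm
    subst e9
    rfl
  · rintro ⟨ρ, M⟩ h
    obtain ⟨hρ, hM⟩ := Finset.mem_sigma.1 h
    obtain ⟨d1, d2⟩ := hTd n hn ρ hρ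
    have hM1 : ∀ i, ρ i ∈ M := (hMf ρ d2 M).1 hM
    obtain ⟨i1, -⟩ := (hI5 ρ d2).2 M hM1
    obtain ⟨z, z1, z2⟩ := hI2 M i1
    obtain ⟨s1, ⟨γ, s2, s3⟩, -⟩ := hR z z1
    obtain ⟨α, hαd⟩ : ∃ α, α = R z := ⟨_, rfl⟩
    rw [← hαd] at s1 s3
    have hz1 : 1 ≤ z.det.natAbs := Nat.one_le_iff_ne_zero.2 (Int.natAbs_ne_zero.2 z1)
    obtain ⟨a1, a2⟩ := hTd _ hz1 α s1
    have hMα : AddSubgroup.closure (Set.range α) = M := by
      rw [← z2]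
      exact (hI4 α z a2).2 ⟨γ, s2, s3⟩
    obtain ⟨β0, hβ0⟩ := (hI3 α ρ).1 (by rw [hMα]; exact hM1)
    have b0 : β0.det ≠ 0 := by
      intro h0
      apply d2
      rw [hβ0, Matrix.det_mul, h0, zero_mul]
    obtain ⟨t1, ⟨γ2, t2, t3⟩, -⟩ := hR β0 b0
    obtain ⟨β, hβd⟩ : ∃ β, β = R β0 := ⟨_, rfl⟩
    rw [← hβd] at t1 t3
    have hn12 : z.det.natAbs * β0.det.natAbs = n := by
      rw [← d1, hβ0, Matrix.det_mul, Int.natAbs_mul, a1, mul_comm]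
    obtain ⟨-, -, -, -, k1, k2, k3, -⟩ := hq _ _ hn12 α s1 β t1
    have hρ2 : ρ = R (β * α) := by
      refine (hR _ k2).2.2 ρ (by rw [k1]; exact hρ) ⟨Ring.inverse γ2, (zm_inv t2).1, ?_⟩
      rw [hβ0, t3, ← mul_assoc, ← mul_assoc, (zm_inv t2).2.2, one_mul]
    refine ⟨⟨(z.det.natAbs, β0.det.natAbs), α, β⟩, Finset.mem_sigma.2
      ⟨Nat.mem_divisorsAntidiagonal.2 ⟨hn12, by omega⟩, Finset.mem_product.2 ⟨s1, t1⟩⟩, ?_⟩
    simp only [← hρ2, hMα]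
  · rintro ⟨⟨n1, n2⟩, α, β⟩ h
    obtain ⟨h1, h2⟩ := Finset.mem_sigma.1 h
    obtain ⟨h12, -⟩ := Nat.mem_divisorsAntidiagonal.1 h1
    obtain ⟨hα, hβ⟩ := Finset.mem_product.1 h2
    obtain ⟨a1, a2, b1, b2, -, -, r1, r2, γ, γ', u1, u2, r3, r4⟩ := hq n1 n2 h12 α hα β hβ
    have h10 : 0 < n1 := Nat.pos_of_ne_zero fun h => by rw [h, zero_mul] at h12; omega
    show a n1 * a n2 * G (cR β * (cR α * g)) (ac N β (ac N α x)) =
      a (AddSubgroup.closure (Set.range α)).index *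
        a (n / (AddSubgroup.closure (Set.range α)).index) *
        G (cR (R (β * α)) * g) (ac N (R (β * α)) x)
    rw [hI1 α a2, a1, ← h12, Nat.mul_div_cancel_left _ h10]
    congr 1
    have hRg : (cR (R (β * α)) * g).det ≠ 0 := by
      rw [Matrix.det_mul, (hdet _).1]
      exact mul_ne_zero (by exact_mod_cast r2) hg
    have e1 : cR β * (cR α * g) = cR γ * (cR (R (β * α)) * g) := by
      calc cR β * (cR α * g) = cR (β * α) * g := by rw [(hcR β α).1, Matrix.mul_assoc]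
        _ = cR (γ * R (β * α)) * g := by rw [← r3]
        _ = cR γ * (cR (R (β * α)) * g) := by rw [(hcR _ _).1, Matrix.mul_assoc]
    have e2 : ac N β (ac N α x) = ac N γ (ac N (R (β * α)) x) := by
      calc ac N β (ac N α x) = ac N (β * α) x := (hac β α x).1.symm
        _ = ac N (γ * R (β * α)) x := by rw [← r3]
        _ = ac N γ (ac N (R (β * α)) x) := (hac _ _ x).1
    rw [e1, e2]
    exact hG γ u1 _ _ hRg

end Pool.Agent.H27.L1.H14.GHY
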